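import Pool.Agent.H33.DT2
import Pool.Agent.H33.DiaDefs

set_option autoImplicit false

namespace Pool.Agent.Results.MP_7e7dde_gt.DiamondCex

open Set Function Pool.Agent.H33.GrothDefs Pool.Agent.H33.DiaDefs

/-- countable tightness -/
def CountablyTight (X : Type) [TopologicalSpace X] : Prop :=
  ∀ (A : Set X) (x : X), x ∈ closure A → ∃ B ⊆ A, B.Countable ∧ x ∈ closure B

/-- `Y` has a countable network -/
def CountableNetwork (Y : Type) [TopologicalSpace Y] : Prop :=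
  ∃ 𝒩 : Set (Set Y), 𝒩.Countable ∧ ∀ U, IsOpen U → ∀ y ∈ U, ∃ M ∈ 𝒩, y ∈ M ∧ M ⊆ U

/-- `ω`-stable spaces -/
def OmegaStable (X : Type) [TopologicalSpace X] : Prop :=
  ∀ (Y : Type) [TopologicalSpace Y] [T35Space Y] (f : X → Y), Continuous f → Surjective f →
    (∃ (M : Type) (_ : TopologicalSpace M), T35Space M ∧ SecondCountableTopology M ∧
      ∃ g : Y → M, Continuous g ∧ Bijective g) → CountableNetwork Y

theorem result (h : Diamond) : ∃ (X : Type) (_ : TopologicalSpace X), T35Space X ∧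
    HereditarilyLindelofSpace X ∧ OmegaStable X ∧ CountablyTight X ∧ ¬ IsGrothendieck X := by
  obtain ⟨A, hA⟩ := h
  have := unc
  obtain ⟨N, ht, v, R, h⟩ := H33.DT2.sys cnt A hA
  refine ⟨H33.DT2.X v, inferInstance, inferInstance, H33.DT2.hl cnt h, ?_, H33.DT2.tight,
    H33.DT2.ng cnt h⟩
  rintro Y _ _ f hf hs ⟨M, _, _, _, g, hg, hb⟩
  have h1 := (H33.DT2.cr cnt h (hg.comp hf)).preimage hb.1
  refine ⟨singleton '' _, h1.image _, fun U _ y hy =>
    ⟨{y}, ⟨y, ?_, rfl⟩, rfl, singleton_subset_iff.2 hy⟩⟩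
  obtain ⟨x, rfl⟩ := hs y
  exact ⟨x, rfl⟩

end Pool.Agent.Results.MP_7e7dde_gt.DiamondCex
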